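import Pool.Agent.Results.MP_787500_nt.LayersBlochKatoLaw

/-!
# The parity conjecture at `λ | 2` for Hilbert newforms of parallel weight two over totally real
# multiquadratic extensions of the layers of the cyclotomic `ℤ₃`-extension

Let `E` be the modular curve `X_0(14)` and `f` its newform.  For a totally real abelian field `F` let `g` be
the base change of `f` to `F`, a Hilbert newform of parallel weight two with rational eigenvalues; for
`λ = 2` the representation `V_{g,λ}` is `V_2 E` over `F`, and `L(g, s)` is `L(E/F, s + 1)`.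

`F = K(√d : d ∈ S)`, where `K` is a layer of the cyclotomic `ℤ₃`-extension of `ℚ` and `S` is a finite set of
positive integers of the class `Adm` (squarefree, `1` modulo `4`, squares modulo `7`, the prime divisors
split completely in `ℚ(i, √2, √-7)` or are inert in `ℚ(√2)` and in `ℚ(√-7)`, and are inert in the
`ℤ₃`-extension).  All these fields are totally real.  `S` is a good set if its elements are independent
modulo squares and certain `2^#S` matrices of quadratic symbols over `𝔽₂` are nonsingular.

Theorem.  If `S` is good, then for all the layers `K` the degree of `F` is `2^#S [K : ℚ]`,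
`H¹_f(F, V_{g,2}) = 0`, the order of `L(g, s)` at the centre is `0`, and every sign of a functional
equation of the completed `L`-function is `1`: the parity conjecture holds for `g` and `λ = 2`.  If `S` is
good, then the set `S ∪ {D}` is good for exactly the proportion `c^(2^#S)` of the positive `D` of the class,
`c = 0.4194…`.  Good sets of positive integers with any number of elements exist, so that this case of the
conjecture holds for totally real fields of all the degrees `2^n [K : ℚ]`.
-/

set_option autoImplicit false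

open NumberField IsDedekindDomain Filter Topology

namespace Pool.Agent.Results.MP_d4aa36_nt.TwoAdicParityLayers

open scoped Classical

open Pool.Agent.Y667.BKP (H1f)

open Pool.Agent.Results.MP_787500_nt.LayersBlochKatoLaw (E base factor multiquadratic cyclotomic Adm
  Good cc Proportion Many Degree)

/-- `L` is the `L`-function of `X_0(14)` over `F`, with all the Euler factors, the centre is `1`; this is
the `L`-function of the Hilbert newform `g` -/
def IsL (F : Type) [Field F] [NumberField F] (L : ℂ → ℂ) : Prop :=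
  Differentiable ℂ L ∧ ∀ s : ℂ, 3 / 2 < s.re → HasProd (factor (K := F) E s) (L s)

/-- `Λ(s) = Q^(s/2) ((2π)^(-s) Γ(s))^n L(s)` -/
noncomputable def Lambda (n : ℕ) (Q : ℝ) (L : ℂ → ℂ) (s : ℂ) : ℂ :=
  (Q : ℂ) ^ (s / 2) * ((2 * (Real.pi : ℂ)) ^ (-s) * Complex.Gamma s) ^ n * L s

/-- `w` is a sign with `Λ(s) = w Λ(2 - s)` in the critical strip, for some positive number `Q` -/
def IsSign (n : ℕ) (L : ℂ → ℂ) (w : ℤ) : Prop :=
  (w = 1 ∨ w = -1) ∧ ∃ Q : ℝ, 0 < Q ∧ ∀ s : ℂ, 1 / 2 < s.re → s.re < 3 / 2 →
    Lambda n Q L s = w * Lambda n Q L (2 - s)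

/-- The parity conjecture holds for `g` over `F` and `λ = 2`, both sides being zero: the Bloch-Kato group
`H¹_f(F, V_2 E)` is zero, the `L`-function exists, its order at the centre is `0`, and every sign of a
functional equation is `1`. -/
def ParityAtTwo (F : Type) [Field F] [NumberField F] : Prop :=
  (base E F).IsElliptic ∧ (∀ x : H1f 2 (base E F), x = 0) ∧ (∃ L : ℂ → ℂ, IsL F L) ∧
    ∀ L : ℂ → ℂ, IsL F L → analyticOrderAt L 1 = 0 ∧
      ∀ w : ℤ, IsSign (Module.finrank ℚ F) L w → w = 1

/-- `ParityAtTwo F` for `F = K(√d : d ∈ S)`, a field of degree `2^#S [K : ℚ]`, and all the layers `K` of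
the cyclotomic `ℤ₃`-extension of `ℚ` (`K` is a subfield of odd degree of a `3 ^ (m + 1)`-th cyclotomic
field). -/
def ParityOverLayers (S : Finset ℤ) : Prop :=
  ∀ (m : ℕ) (K F : IntermediateField ℚ ℂ) [NumberField K] [NumberField F],
    K ≤ cyclotomic (3 ^ (m + 1)) → Odd (Module.finrank ℚ K) → F = multiquadratic S ⊔ K →
    Degree K F S.card ∧ ParityAtTwo F

theorem sign_one {n : ℕ} {L : ℂ → ℂ} (hL : L 1 ≠ 0) {w : ℤ} (h : IsSign n L w) : w = 1 := by
  obtain ⟨hw, Q, hQ, h⟩ := h
  rcases hw with hw | hw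
  · exact hw
  · exfalso
    have h1 := h 1 (by norm_num) (by norm_num)
    have e : (2 : ℂ) - 1 = 1 := by norm_num
    rw [hw, e] at h1
    have h2 : Lambda n Q L 1 = 0 := by
      push_cast at h1
      linear_combination h1 / 2
    unfold Lambda at h2
    rw [Complex.Gamma_one, mul_one] at h2
    have hQ0 : (Q : ℂ) ≠ 0 := by exact_mod_cast hQ.ne'
    have hpi : (2 * (Real.pi : ℂ)) ≠ 0 := by
      have : (Real.pi : ℂ) ≠ 0 := by exact_mod_cast Real.pi_ne_zero
      exact mul_ne_zero two_ne_zero this
    have h3 : (Q : ℂ) ^ ((1 : ℂ) / 2) ≠ 0 := by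
      rw [Complex.cpow_def_of_ne_zero hQ0]
      exact Complex.exp_ne_zero _
    have h4 : (2 * (Real.pi : ℂ)) ^ (-(1 : ℂ)) ≠ 0 := by
      rw [Complex.cpow_def_of_ne_zero hpi]
      exact Complex.exp_ne_zero _
    exact mul_ne_zero (mul_ne_zero h3 (pow_ne_zero n h4)) hL h2

theorem eq_one {F : Type} [Field F] [NumberField F] {L L' : ℂ → ℂ} (h : IsL F L) (h' : IsL F L') :
    L = L' := by
  have h1 : AnalyticOnNhd ℂ L Set.univ := fun z _ => h.1.analyticAt z
  have h2 : AnalyticOnNhd ℂ L' Set.univ := fun z _ => h'.1.analyticAt z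
  refine h1.eq_of_eventuallyEq h2 (z₀ := 2) ?_
  have h3 : ∀ᶠ s : ℂ in 𝓝 (2 : ℂ), 3 / 2 < s.re :=
    (Complex.continuous_re.continuousAt (x := (2 : ℂ))).eventually
      (lt_mem_nhds (show (3 / 2 : ℝ) < (2 : ℂ).re by norm_num))
  filter_upwards [h3] with s hs
  exact (h.2 s hs).unique (h'.2 s hs)

theorem parity_of {F : Type} [Field F] [NumberField F]
    (h : MP_787500_nt.LayersBlochKatoLaw.Holds F) : ParityAtTwo F := by
  obtain ⟨⟨h1, -, h2⟩, L₀, h3, h4, h5⟩ := h
  have hL₀ : IsL F L₀ := ⟨h3, h4⟩
  refine ⟨h1, h2, ⟨L₀, hL₀⟩, fun L hL => ?_⟩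
  have hL1 : L 1 ≠ 0 := by
    rw [eq_one hL hL₀]
    exact h5
  exact ⟨analyticOrderAt_eq_zero.2 (Or.inr hL1), fun w hw => sign_one hL1 hw⟩

/-- **Main theorem.**
(1) Let `S` be a good set of positive integers (then all the fields `F = K(√d : d ∈ S)` are totally real).
For each layer `K` of the cyclotomic `ℤ₃`-extension of `ℚ` the degree of `F` is `2^#S [K : ℚ]`, and the
parity conjecture holds for `g` over `F` and `λ = 2`: `H¹_f(F, V_2 E) = 0` and the order of the
`L`-function at the centre is `0`.
(2) For each good set `S` of positive integers, the set `S ∪ {D}` is a good set with `#S + 1` elements for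
exactly the proportion `c^(2^#S)` of the positive `D` of the class; `0.4194 < c < 0.4195`, and the class
has at least a constant times `X (log X)^(-3/4)` positive elements up to `X`.
(3) For every `n` there is a good set of `n` positive integers. -/
theorem result :
    (∀ S : Finset ℤ, (∀ d ∈ S, 0 < d) → Good S → ParityOverLayers S) ∧
    (∀ S : Finset ℤ, (∀ d ∈ S, 0 < d) → Good S →
      Proportion (fun D => D ∉ S ∧ Good (insert D S)) 1 (cc ^ (2 ^ S.card))) ∧
    (0.4194 < cc ∧ cc < 0.4195) ∧ Many 1 ∧
    ∀ n : ℕ, ∃ S : Finset ℤ, S.card = n ∧ (∀ d ∈ S, 0 < d) ∧ Good S := by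
  obtain ⟨r1, ⟨r2, -⟩, r3, r4, r5⟩ := MP_787500_nt.LayersBlochKatoLaw.result
  refine ⟨fun S _ hS m K F _ _ h1 h2 h3 => ?_, fun S _ hS => (r3 1 (Or.inl rfl)).2 S hS, r4,
    (r3 1 (Or.inl rfl)).1, fun n => ?_⟩
  · obtain ⟨h4, h5⟩ := (r1 S hS).1 m K F h1 h2 h3
    exact ⟨h4, parity_of h5⟩
  · obtain ⟨d, hd1, hd2, -, hd4⟩ := r5 ∅ r2 (fun _ => 1) fun _ => Or.inl rfl
    have h := hd4 n
    rw [Finset.empty_union] at h
    refine ⟨_, ?_, fun x hx => ?_, h⟩
    · rw [Finset.card_image_of_injective _ hd2, Finset.card_range]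
    · obtain ⟨i, -, rfl⟩ := Finset.mem_image.1 hx
      have := hd1 i
      omega

end Pool.Agent.Results.MP_d4aa36_nt.TwoAdicParityLayers
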